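import Pool.Agent.H87.QP.Targets

/-!
# MP_c59857_nt, theorem (QP): row NEA
-/

set_option autoImplicit false

namespace Pool.Agent.H68.QP

open Finset Pool.Agent.H87.QP

lemma nea_one {f : ℕ → ℝ} {n S a : ℕ} {e η : ℝ} (hf : ∀ t, f t = 1 ∨ f t = -1)
    (he : e = 1 ∨ e = -1) (h : 1 - η ≤ e * rh f S n a) :
    ∑ y ∈ Ioc n (n + S), (f y - e * f (y + a)) ^ 2 ≤ 2 * η * S := by
  have hsq : ∀ t, f t ^ 2 = 1 := by
    intro t
    rcases hf t with h | h <;> rw [h] <;> norm_num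
  have hesq : e ^ 2 = 1 := by
    rcases he with h | h <;> rw [h] <;> norm_num
  have e1 : ∑ y ∈ Ioc n (n + S), (f y - e * f (y + a)) ^ 2 =
      2 * S - 2 * e * ∑ y ∈ Ioc n (n + S), f y * f (y + a) := by
    have h1 : ∀ y ∈ Ioc n (n + S), (f y - e * f (y + a)) ^ 2 =
        2 - 2 * e * (f y * f (y + a)) := by
      intro y _
      have : (f y - e * f (y + a)) ^ 2 = f y ^ 2 + e ^ 2 * f (y + a) ^ 2 -
        2 * e * (f y * f (y + a)) := by ring
      rw [this, hsq, hsq, hesq]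
      ring
    rw [sum_congr rfl h1, sum_sub_distrib, sum_const, Nat.card_Ioc, nsmul_eq_mul, ← mul_sum,
      Nat.add_sub_cancel_left]
    ring
  rw [e1]
  rcases Nat.eq_zero_or_pos S with h0 | h0
  · subst h0
    simp
  have hS : (0 : ℝ) < S := by exact_mod_cast h0
  have e2 : ∑ y ∈ Ioc n (n + S), f y * f (y + a) = rh f S n a * S := by
    unfold rh
    rw [div_mul_cancel₀ _ hS.ne']
  rw [e2]
  have := mul_le_mul_of_nonneg_right h hS.le
  nlinarith

lemma nea_shift {g : ℕ → ℝ} (hg : ∀ y, 0 ≤ g y) {n S A c : ℕ} (hc : c ≤ A) :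
    ∑ x ∈ Ioc (n + A) (n + S), g (x - c) ≤ ∑ y ∈ Ioc n (n + S), g y := by
  have h1 : ∑ x ∈ Ioc (n + A) (n + S), g (x - c) =
      ∑ y ∈ (Ioc (n + A) (n + S)).image (fun x => x - c), g y := by
    rw [sum_image]
    intro x hx y hy hxy
    have hx' := mem_Ioc.1 hx
    have hy' := mem_Ioc.1 hy
    simp only at hxy
    omega
  rw [h1]
  refine sum_le_sum_of_subset_of_nonneg ?_ (fun y _ _ => hg y)
  intro y hy
  obtain ⟨x, hx, rfl⟩ := mem_image.1 hy
  have hx' := mem_Ioc.1 hx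
  exact mem_Ioc.2 ⟨by omega, by omega⟩

lemma nea_two {f : ℕ → ℝ} {n S A a b : ℕ} {e e' η : ℝ} (hf : ∀ t, f t = 1 ∨ f t = -1)
    (he : e = 1 ∨ e = -1) (he' : e' = 1 ∨ e' = -1) (ha : a ≤ A) (hb : b ≤ A)
    (hA : A ≤ S) (h : 1 - η ≤ e * rh f S n a) (h' : 1 - η ≤ e' * rh f S n b) :
    ∑ x ∈ Ioc n (n + S), (f x - e * e' * f (x + a - b)) ^ 2 ≤ 8 * η * S + 4 * A := by
  have hsq : ∀ t, f t ^ 2 = 1 := by
    intro t
    rcases hf t with h | h <;> rw [h] <;> norm_num
  have hesq : e ^ 2 = 1 := by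
    rcases he with h | h <;> rw [h] <;> norm_num
  have hesq' : e' ^ 2 = 1 := by
    rcases he' with h | h <;> rw [h] <;> norm_num
  have hsplit : Ioc n (n + S) = Ioc n (n + A) ∪ Ioc (n + A) (n + S) :=
    (Ioc_union_Ioc_eq_Ioc (by omega) (by omega)).symm
  have hdisj : Disjoint (Ioc n (n + A)) (Ioc (n + A) (n + S)) := by
    rw [disjoint_left]
    intro x hx hy
    have h1 := (mem_Ioc.1 hx).2
    have h2 := (mem_Ioc.1 hy).1
    omega
  rw [hsplit, sum_union hdisj]
  have p1 : ∑ x ∈ Ioc n (n + A), (f x - e * e' * f (x + a - b)) ^ 2 ≤ 4 * A := by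
    calc ∑ x ∈ Ioc n (n + A), (f x - e * e' * f (x + a - b)) ^ 2 ≤ ∑ _x ∈ Ioc n (n + A), (4 : ℝ) := by
          refine sum_le_sum (fun x _ => ?_)
          have h1 : (f x - e * e' * f (x + a - b)) ^ 2 + (f x + e * e' * f (x + a - b)) ^ 2 =
            2 * f x ^ 2 + 2 * e ^ 2 * e' ^ 2 * f (x + a - b) ^ 2 := by ring
          rw [hsq, hsq, hesq, hesq'] at h1
          have h2 := sq_nonneg (f x + e * e' * f (x + a - b))
          linarith
      _ = 4 * A := by
          rw [sum_const, Nat.card_Ioc, nsmul_eq_mul, Nat.add_sub_cancel_left]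
          ring
  have p2 : ∑ x ∈ Ioc (n + A) (n + S), (f x - e * e' * f (x + a - b)) ^ 2 ≤ 8 * η * S := by
    calc ∑ x ∈ Ioc (n + A) (n + S), (f x - e * e' * f (x + a - b)) ^ 2 ≤
        ∑ x ∈ Ioc (n + A) (n + S), (2 * (f (x - b) - e' * f ((x - b) + b)) ^ 2 +
          2 * (f (x - b) - e * f ((x - b) + a)) ^ 2) := by
          refine sum_le_sum (fun x hx => ?_)
          have hx' := mem_Ioc.1 hx
          have e1 : x - b + b = x := by omega
          have e2 : x - b + a = x + a - b := by omega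
          rw [e1, e2]
          have e3 : (f (x - b) - e' * f x) ^ 2 = (f x - e' * f (x - b)) ^ 2 := by
            have e4 : (f (x - b) - e' * f x) ^ 2 - (f x - e' * f (x - b)) ^ 2 =
              (f (x - b) ^ 2 - f x ^ 2) * (1 - e' ^ 2) := by ring
            rw [hesq'] at e4
            linarith
          have e5 : (f (x - b) - e * f (x + a - b)) ^ 2 =
              (e' * (f (x - b) - e * f (x + a - b))) ^ 2 := by
            rw [mul_pow, hesq', one_mul]
          rw [e3, e5]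
          have e6 : f x - e * e' * f (x + a - b) = (f x - e' * f (x - b)) +
            e' * (f (x - b) - e * f (x + a - b)) := by ring
          rw [e6]
          nlinarith [sq_nonneg ((f x - e' * f (x - b)) - e' * (f (x - b) - e * f (x + a - b)))]
      _ = 2 * ∑ x ∈ Ioc (n + A) (n + S), (fun y => (f y - e' * f (y + b)) ^ 2) (x - b) +
          2 * ∑ x ∈ Ioc (n + A) (n + S), (fun y => (f y - e * f (y + a)) ^ 2) (x - b) := by
          rw [sum_add_distrib, ← mul_sum, ← mul_sum]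
      _ ≤ 2 * (2 * η * S) + 2 * (2 * η * S) := by
          refine add_le_add ?_ ?_
          · refine mul_le_mul_of_nonneg_left ?_ (by norm_num)
            exact (nea_shift (g := fun y => (f y - e' * f (y + b)) ^ 2) (fun y => sq_nonneg _)
              hb).trans (nea_one hf he' h')
          · refine mul_le_mul_of_nonneg_left ?_ (by norm_num)
            exact (nea_shift (g := fun y => (f y - e * f (y + a)) ^ 2) (fun y => sq_nonneg _)
              hb).trans (nea_one hf he h)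
      _ = 8 * η * S := by ring
  linarith

theorem pf_NEA : T_NEA := by
  intro f n S A h Q ε η hf hQ hqA _ hAS hε hη
  have hc : (0 : ℝ) < Q.card := by exact_mod_cast hQ.card_pos
  have h1 : ∀ x ∈ Ioc n (n + S), (f x - (∑ q ∈ Q, ∑ q' ∈ Q, ε q * ε q' *
      f (x + q * h - q' * h)) / (Q.card : ℝ) ^ 2) ^ 2 ≤
      (∑ p ∈ Q ×ˢ Q, (f x - ε p.1 * ε p.2 * f (x + p.1 * h - p.2 * h)) ^ 2) /
        (Q.card : ℝ) ^ 2 := by
    intro x _
    have e1 : f x - (∑ q ∈ Q, ∑ q' ∈ Q, ε q * ε q' * f (x + q * h - q' * h)) /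
        (Q.card : ℝ) ^ 2 = (∑ p ∈ Q ×ˢ Q, (f x - ε p.1 * ε p.2 * f (x + p.1 * h - p.2 * h))) /
          (Q.card : ℝ) ^ 2 := by
      rw [sum_sub_distrib, sum_const, card_product, nsmul_eq_mul, sum_product, sub_div]
      congr 1
      push_cast
      field_simp
    rw [e1, div_pow]
    have e2 := sq_sum_le_card_mul_sum_sq (s := Q ×ˢ Q)
      (f := fun p => f x - ε p.1 * ε p.2 * f (x + p.1 * h - p.2 * h))
    rw [card_product] at e2
    rw [div_le_div_iff₀ (by positivity) (by positivity)]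
    push_cast at e2
    calc (∑ p ∈ Q ×ˢ Q, (f x - ε p.1 * ε p.2 * f (x + p.1 * h - p.2 * h))) ^ 2 *
        (Q.card : ℝ) ^ 2 ≤ ((Q.card : ℝ) * Q.card *
          ∑ p ∈ Q ×ˢ Q, (f x - ε p.1 * ε p.2 * f (x + p.1 * h - p.2 * h)) ^ 2) *
            (Q.card : ℝ) ^ 2 := mul_le_mul_of_nonneg_right e2 (by positivity)
      _ = _ := by ring
  refine (sum_le_sum h1).trans ?_
  rw [← sum_div, sum_comm, div_le_iff₀ (by positivity)]
  calc ∑ p ∈ Q ×ˢ Q, ∑ x ∈ Ioc n (n + S),
      (f x - ε p.1 * ε p.2 * f (x + p.1 * h - p.2 * h)) ^ 2 ≤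
      ∑ _p ∈ Q ×ˢ Q, (8 * η * S + 4 * A) := by
        refine sum_le_sum (fun p hp => ?_)
        obtain ⟨hp1, hp2⟩ := mem_product.1 hp
        exact nea_two hf (hε _ hp1) (hε _ hp2) (hqA _ hp1) (hqA _ hp2) hAS (hη _ hp1)
          (hη _ hp2)
    _ = (8 * η * S + 4 * A) * (Q.card : ℝ) ^ 2 := by
        rw [sum_const, card_product, nsmul_eq_mul]
        push_cast
        ring

end Pool.Agent.H68.QP
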