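import Pool.Agent.H87.QP.Targets2

/-!
# MP_c59857_nt, theorem (RZ): row RZB
-/

set_option autoImplicit false

namespace Pool.Agent.H68.QP

open Finset Pool.Agent.H87.QP Pool.Agent.H6.N4D Pool.Agent.H93.DE

lemma sum_Ioc_range {M : Type} [AddCommMonoid M] (g : ℕ → M) (n L : ℕ) :
    ∑ x ∈ Ioc n (n + L), g x = ∑ t ∈ range L, g (n + 1 + t) := by
  induction L with
  | zero => simp
  | succ L ih =>
    rw [sum_range_succ, ← ih, ← Nat.add_assoc, sum_Ioc_succ_top (by omega)]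
    congr 2
    omega

lemma sum_Icc_range {M : Type} [AddCommMonoid M] (g : ℕ → M) (L : ℕ) :
    ∑ h ∈ Icc 1 L, g h = ∑ t ∈ range L, g (t + 1) := by
  have h1 : Icc 1 L = Ioc 0 (0 + L) := by
    ext x
    simp only [mem_Icc, mem_Ioc]
    omega
  rw [h1, sum_Ioc_range]
  refine sum_congr rfl (fun t _ => ?_)
  congr 1
  omega

lemma norm_ee (x : ℝ) : ‖ee x‖ = 1 := by
  unfold ee
  exact Complex.norm_exp_ofReal_mul_I _

lemma ee_shift (β : ℝ) (n h : ℕ) :
    ee (-(β * n)) * ee (β * ((n + h : ℕ) : ℝ)) =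
      Complex.exp (2 * Real.pi * Complex.I * (β * h)) := by
  unfold ee
  rw [← Complex.exp_add]
  congr 1
  push_cast
  ring

theorem pf_RZB (h : T_RZF) : T_RZB := by
  intro H τ hτ
  obtain ⟨R, B, m₀, hB, hR⟩ := h H τ hτ
  refine ⟨R, B, m₀, hB, ?_⟩
  intro m w hm hw lam hlam c hc n
  obtain ⟨b, β, hb, hs⟩ := hR m w hm hw (fun x => (lam x : ℂ)) (fun x => by
    rcases hlam x with h | h <;> simp [h]) c hc (n + 1)
  refine ⟨fun t r => b t r * ee (-(β t r * ((n + 1 + t : ℕ) : ℝ))), β, ?_, ?_⟩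
  · intro t r
    rw [norm_mul, norm_ee, mul_one]
    exact hb t r
  · have hL : ∀ t ∈ range (2 ^ w), (∑ x ∈ Ioc (n + 1 + t) (n + 1 + t + B * 2 ^ m),
        ‖(lam x : ℂ) - ∑ r ∈ range R, b t r * ee (-(β t r * ((n + 1 + t : ℕ) : ℝ))) *
          ee (β t r * x)‖ ^ 2) / ((B * 2 ^ m : ℕ) : ℝ) =
        (∑ h ∈ Icc 1 (B * 2 ^ m), ‖(lam (n + 1 + t + h) : ℂ) - ∑ r ∈ range R,
          b t r * Complex.exp (2 * Real.pi * Complex.I * (β t r * h))‖ ^ 2) / (B * 2 ^ m) := by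
      intro t _
      rw [sum_Ioc_range, sum_Icc_range, Nat.cast_mul, Nat.cast_pow, Nat.cast_ofNat]
      congr 1
      refine sum_congr rfl (fun s _ => ?_)
      have e1 : n + 1 + t + 1 + s = n + 1 + t + (s + 1) := by omega
      rw [e1]
      congr 3
      refine sum_congr rfl (fun r _ => ?_)
      rw [mul_assoc, ee_shift]
    have hRt : ∀ q ∈ oct m, fl lam H (2 ^ w) q n (c q) =
        (∑ t ∈ range (2 ^ w), ‖∑ h ∈ range (H + 1), c q h *
          (lam (n + 1 + t + q * h) : ℂ)‖ ^ 2) / 2 ^ w := by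
      intro q _
      unfold fl
      rw [sum_Ioc_range, Nat.cast_pow, Nat.cast_ofNat]
    rw [sum_congr rfl hL, sum_congr rfl hRt]
    exact hs

end Pool.Agent.H68.QP
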